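import Mathlib
import Pool.Agent.MP_39baa9_co.Defs

-- part MP_39baa9_co.Basic
section

set_option autoImplicit false

namespace Pool.Agent.MP_39baa9_co

open Classical

variable {V : Type}

/-- closed neighbourhood relation -/
def Cl (G : SimpleGraph V) (a t : V) : Prop := t = a ∨ G.Adj a t

/-- `{u,w}` dominates everything except possibly `v` -/
def Dom2 (G : SimpleGraph V) (u w v : V) : Prop := ∀ t, t ≠ v → Cl G u t ∨ Cl G w t

lemma domNum_lt_three_iff [Fintype V] [Nonempty V] (G : SimpleGraph V) :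
    dominationNumber G < 3 ↔ ∃ a b, ∀ t, Cl G a t ∨ Cl G b t := by
  constructor
  · intro h
    have hne : {k | ∃ D : Finset V, IsDominating G D ∧ D.card = k}.Nonempty :=
      ⟨_, Finset.univ, fun v hv => absurd (Finset.mem_univ v) hv, rfl⟩
    obtain ⟨D, hD, hc⟩ := Nat.sInf_mem hne
    have hc2 : D.card ≤ 2 := by
      unfold dominationNumber at h
      omega
    have hsub : ∃ a b, ∀ d ∈ D, d = a ∨ d = b := by
      rcases Nat.lt_or_ge D.card 2 with h1 | h1
      · obtain ⟨a, ha⟩ := Finset.card_le_one_iff_subset_singleton.1 (show D.card ≤ 1 by omega)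
        exact ⟨a, a, fun d hd => Or.inl (Finset.mem_singleton.1 (ha hd))⟩
      · obtain ⟨a, b, -, rfl⟩ := Finset.card_eq_two.1 (show D.card = 2 by omega)
        exact ⟨a, b, fun d hd => by simpa using hd⟩
    obtain ⟨a, b, hab⟩ := hsub
    refine ⟨a, b, fun t => ?_⟩
    by_cases ht : t ∈ D
    · rcases hab t ht with rfl | rfl
      · exact Or.inl (Or.inl rfl)
      · exact Or.inr (Or.inl rfl)
    · obtain ⟨d, hd, hadj⟩ := hD t ht
      rcases hab d hd with rfl | rfl
      · exact Or.inl (Or.inr hadj.symm)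
      · exact Or.inr (Or.inr hadj.symm)
  · rintro ⟨a, b, h⟩
    have : dominationNumber G ≤ ({a, b} : Finset V).card := by
      apply Nat.sInf_le
      refine ⟨{a, b}, fun v hv => ?_, rfl⟩
      simp only [Finset.mem_insert, Finset.mem_singleton, not_or] at hv
      rcases h v with (h | h) | (h | h)
      · exact absurd h hv.1
      · exact ⟨a, by simp, h.symm⟩
      · exact absurd h hv.2
      · exact ⟨b, by simp, h.symm⟩
    have h2 : ({a, b} : Finset V).card ≤ 2 := Finset.card_le_two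
    omega

lemma nodom_of_crit [Fintype V] [Nonempty V] {G : SimpleGraph V} (h : EdgeCritical 3 G)
    (a b : V) : ∃ t, ¬ Cl G a t ∧ ¬ Cl G b t := by
  by_contra hc
  have : dominationNumber G < 3 := by
    rw [domNum_lt_three_iff]
    refine ⟨a, b, fun t => ?_⟩
    by_contra h2
    exact hc ⟨t, fun h => h2 (Or.inl h), fun h => h2 (Or.inr h)⟩
  rw [h.1] at this
  omega

lemma cl_sup_edge {G : SimpleGraph V} {u v a t : V} (h : Cl (G ⊔ SimpleGraph.edge u v) a t) :
    Cl G a t ∨ (a = u ∧ t = v) ∨ (a = v ∧ t = u) := by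
  rcases h with h | h
  · exact Or.inl (Or.inl h)
  · rw [SimpleGraph.sup_adj, SimpleGraph.edge_adj] at h
    rcases h with h | ⟨h, -⟩
    · exact Or.inl (Or.inr h)
    · exact Or.inr h

lemma crit_pair [Fintype V] [Nonempty V] {G : SimpleGraph V} (h : EdgeCritical 3 G)
    {u v : V} (huv : u ≠ v) (hn : ¬ G.Adj u v) : ∃ w, Dom2 G u w v ∨ Dom2 G v w u := by
  obtain ⟨a, b, hab⟩ := (domNum_lt_three_iff _).1 (h.2 u v huv hn)
  obtain ⟨t0, ha0, hb0⟩ := nodom_of_crit h a b
  -- t0 is dominated through the new edge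
  have key : ∀ x y : V, (∀ t, Cl (G ⊔ SimpleGraph.edge x y) a t ∨
      Cl (G ⊔ SimpleGraph.edge x y) b t) → t0 = y → (a = x ∨ b = x) → ∃ w, Dom2 G x w y := by
    intro x y hxy ht hx
    subst ht
    have hay : a ≠ t0 := fun e => ha0 (Or.inl e.symm)
    have hby : b ≠ t0 := fun e => hb0 (Or.inl e.symm)
    have hall : ∀ t, t ≠ t0 → Cl G a t ∨ Cl G b t := by
      intro t ht
      rcases hxy t with h1 | h1
      · rcases cl_sup_edge h1 with h2 | ⟨-, h2⟩ | ⟨h2, -⟩
        · exact Or.inl h2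
        · exact absurd h2 ht
        · exact absurd h2 hay
      · rcases cl_sup_edge h1 with h2 | ⟨-, h2⟩ | ⟨h2, -⟩
        · exact Or.inr h2
        · exact absurd h2 ht
        · exact absurd h2 hby
    rcases hx with rfl | rfl
    · exact ⟨b, hall⟩
    · exact ⟨a, fun t ht => (hall t ht).symm⟩
  have hab' : ∀ t, Cl (G ⊔ SimpleGraph.edge v u) a t ∨ Cl (G ⊔ SimpleGraph.edge v u) b t := by
    rw [SimpleGraph.edge_comm]
    exact hab
  rcases hab t0 with h1 | h1
  · rcases cl_sup_edge h1 with h2 | ⟨h2, h3⟩ | ⟨h2, h3⟩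
    · exact absurd h2 ha0
    · obtain ⟨w, hw⟩ := key u v hab h3 (Or.inl h2)
      exact ⟨w, Or.inl hw⟩
    · obtain ⟨w, hw⟩ := key v u hab' h3 (Or.inl h2)
      exact ⟨w, Or.inr hw⟩
  · rcases cl_sup_edge h1 with h2 | ⟨h2, h3⟩ | ⟨h2, h3⟩
    · exact absurd h2 hb0
    · obtain ⟨w, hw⟩ := key u v hab h3 (Or.inr h2)
      exact ⟨w, Or.inl hw⟩
    · obtain ⟨w, hw⟩ := key v u hab' h3 (Or.inr h2)
      exact ⟨w, Or.inr hw⟩

end Pool.Agent.MP_39baa9_co

end

-- part MP_39baa9_co.Main
section

set_option autoImplicit false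

namespace Pool.Agent.MP_39baa9_co

open Classical Finset

variable {V : Type} [Fintype V]

/-- The standing hypotheses: a set `S` of `r+1` vertices of degree at most `r` in a large
connected 3-critical graph. -/
structure Setup (G : SimpleGraph V) (r : ℕ) (S : Finset V) : Prop where
  card : S.card = r + 1
  deg : ∀ s ∈ S, (univ.filter (G.Adj s)).card ≤ r
  nd : ∀ a b, ∃ t, ¬ Cl G a t ∧ ¬ Cl G b t
  cr : ∀ u v, u ≠ v → ¬ G.Adj u v → ∃ w, Dom2 G u w v ∨ Dom2 G v w u
  big : (r + 1) * (r + 1) + (r + 1) + 1 < Fintype.card V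
  conn : ∀ T : Finset V, T.Nonempty → T ≠ univ → ∃ a ∈ T, ∃ b, b ∉ T ∧ G.Adj a b

/-- non-neighbours inside `S` -/
noncomputable def Hn (G : SimpleGraph V) (S : Finset V) (z : V) : Finset V :=
  S.filter (fun s => ¬ Cl G z s)

/-- neighbours outside `S` -/
noncomputable def On (G : SimpleGraph V) (S : Finset V) (z : V) : Finset V :=
  univ.filter (fun t => t ∉ S ∧ G.Adj z t)

/-- an outside vertex adjacent to all of `S` but `x` -/
def Bw (G : SimpleGraph V) (S : Finset V) (x w : V) : Prop :=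
  w ∉ S ∧ ¬ G.Adj w x ∧ ∀ s ∈ S, s ≠ x → G.Adj w s

variable {G : SimpleGraph V} {r : ℕ} {S : Finset V}

omit [Fintype V] in
lemma Cl.symm {a t : V} (h : Cl G a t) : Cl G t a :=
  h.elim (fun h => Or.inl h.symm) (fun h => Or.inr h.symm)

omit [Fintype V] in
lemma mem_Hn {z s : V} : s ∈ Hn G S z ↔ s ∈ S ∧ ¬ Cl G z s := by simp [Hn]

lemma mem_On {z t : V} : t ∈ On G S z ↔ t ∉ S ∧ G.Adj z t := by simp [On]

omit [Fintype V] in
lemma Hn_symm {z s : V} (hz : z ∈ S) (h : s ∈ Hn G S z) : z ∈ Hn G S s :=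
  mem_Hn.2 ⟨hz, fun h' => (mem_Hn.1 h).2 h'.symm⟩

lemma Setup.card_cl (H : Setup G r S) {s : V} (hs : s ∈ S) :
    (univ.filter (Cl G s)).card ≤ r + 1 := by
  have : univ.filter (Cl G s) ⊆ insert s (univ.filter (G.Adj s)) := by
    intro t ht
    simpa [Cl] using ht
  have h1 := card_le_card this
  have h2 := card_insert_le s (univ.filter (G.Adj s))
  have h3 := H.deg s hs
  omega

lemma Setup.on_le_hn (H : Setup G r S) {z : V} (hz : z ∈ S) :
    (On G S z).card ≤ (Hn G S z).card := by
  have h1 := H.card_cl hz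
  have h2 : (S.filter (Cl G z)).card + (Hn G S z).card = r + 1 := by
    rw [← H.card]
    exact card_filter_add_card_filter_not (s := S) (Cl G z)
  have h3 : (S.filter (Cl G z)).card + (On G S z).card ≤ (univ.filter (Cl G z)).card := by
    rw [← card_union_of_disjoint]
    · apply card_le_card
      intro t ht
      rcases mem_union.1 ht with h | h
      · exact mem_filter.2 ⟨mem_univ _, (mem_filter.1 h).2⟩
      · exact mem_filter.2 ⟨mem_univ _, Or.inr (mem_On.1 h).2⟩
    · rw [disjoint_left]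
      intro t h1 h2
      exact (mem_On.1 h2).1 (mem_filter.1 h1).1
  omega

lemma Setup.not_cl (H : Setup G r S) {u w v : V} (h : Dom2 G u w v) :
    ¬ Cl G u v ∧ ¬ Cl G w v := by
  obtain ⟨t, h1, h2⟩ := H.nd u w
  have : t = v := by
    by_contra hne
    exact (h t hne).elim h1 h2
  subst this
  exact ⟨h1, h2⟩

lemma Setup.dom2_unique (H : Setup G r S) {u w y y' : V} (h : Dom2 G u w y)
    (h' : Dom2 G u w y') : y = y' := by
  by_contra hne
  exact (h' y hne).elim (H.not_cl h).1 (H.not_cl h).2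

lemma Setup.not_dom2 (H : Setup G r S) (hr : 1 ≤ r) {a b v : V} (ha : a ∈ S) (hb : b ∈ S) :
    ¬ Dom2 G a b v := by
  intro h
  have : (univ : Finset V) ⊆ insert v (univ.filter (Cl G a) ∪ univ.filter (Cl G b)) := by
    intro t _
    by_cases ht : t = v
    · simp [ht]
    · simpa [ht] using h t ht
  have h1 := card_le_card this
  have h2 := card_insert_le v (univ.filter (Cl G a) ∪ univ.filter (Cl G b))
  have h3 := card_union_le (univ.filter (Cl G a)) (univ.filter (Cl G b))
  have h4 := H.card_cl ha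
  have h5 := H.card_cl hb
  have h6 := H.big
  rw [card_univ] at h1
  nlinarith

/-- sets of vertices `y` with `[x,w] → y` for a `w` in a given set are small -/
lemma Setup.card_exc (H : Setup G r S) (x : V) (W X : Finset V)
    (hX : ∀ y ∈ X, ∃ w ∈ W, Dom2 G x w y) : X.card ≤ W.card := by
  have hch : ∀ y : V, ∃ w, (∃ w ∈ W, Dom2 G x w y) → w ∈ W ∧ Dom2 G x w y := by
    intro y
    by_cases h : ∃ w ∈ W, Dom2 G x w y
    · obtain ⟨w, hw⟩ := h
      exact ⟨w, fun _ => hw⟩
    · exact ⟨y, fun h' => absurd h' h⟩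
  choose f hf using hch
  apply card_le_card_of_injOn f
  · intro y hy
    exact (hf y (hX y hy)).1
  · intro y hy y' hy' e
    have h1 := (hf y (hX y hy)).2
    have h2 := (hf y' (hX y' hy')).2
    rw [← e] at h2
    exact H.dom2_unique h1 h2

/-- a far vertex `y` avoiding one more vertex set of size at most one -/
lemma Setup.exists_far (H : Setup G r S) {x z : V} (hx : x ∈ S) (hz : z ∈ Hn G S x)
    (E : Finset V) (hE : E.card ≤ 1) :
    ∃ y, y ∉ E ∧ (∀ s ∈ S, ¬ Cl G s y) ∧ ∃ w, Dom2 G y w x := by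
  obtain ⟨hzS, hxz⟩ := mem_Hn.1 hz
  set NS := S.biUnion (fun s => univ.filter (Cl G s)) with hNS
  have h1 : NS.card ≤ (r + 1) * (r + 1) := by
    calc NS.card ≤ ∑ s ∈ S, (univ.filter (Cl G s)).card := card_biUnion_le
      _ ≤ ∑ s ∈ S, (r + 1) := sum_le_sum (fun s hs => H.card_cl hs)
      _ = (r + 1) * (r + 1) := by rw [sum_const, H.card, smul_eq_mul]
  obtain ⟨X, hX⟩ : ∃ X : Finset V, ∀ y, y ∈ X ↔ ∃ w ∈ univ.filter (Cl G z), Dom2 G x w y :=
    ⟨univ.filter (fun y => ∃ w ∈ univ.filter (Cl G z), Dom2 G x w y), fun y => by simp⟩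
  have h2 : X.card ≤ r + 1 :=
    (H.card_exc x _ X (fun y hy => (hX y).1 hy)).trans (H.card_cl hzS)
  have h3 : (NS ∪ X ∪ E).card < (univ : Finset V).card := by
    have := card_union_le (NS ∪ X) E
    have := card_union_le NS X
    have := H.big
    rw [card_univ]
    omega
  obtain ⟨y, -, hy⟩ := exists_mem_notMem_of_card_lt_card h3
  simp only [mem_union, not_or] at hy
  obtain ⟨⟨hy1, hy2⟩, hy3⟩ := hy
  have hfar : ∀ s ∈ S, ¬ Cl G s y := by
    intro s hs h
    exact hy1 (mem_biUnion.2 ⟨s, hs, mem_filter.2 ⟨mem_univ _, h⟩⟩)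
  refine ⟨y, hy3, hfar, ?_⟩
  have hxy := hfar x hx
  obtain ⟨w, hw | hw⟩ := H.cr x y (fun e => hxy (Or.inl e.symm)) (fun e => hxy (Or.inr e))
  · exfalso
    apply hy2
    refine (hX y).2 ⟨w, mem_filter.2 ⟨mem_univ _, ?_⟩, hw⟩
    have hzy : z ≠ y := fun e => hfar z hzS (Or.inl e.symm)
    rcases hw z hzy with h | h
    · exact absurd h hxz
    · exact h.symm
  · exact ⟨w, hw⟩

/-- what a far witness gives -/
lemma Setup.far_cases (H : Setup G r S) {x y w : V} (hx : x ∈ S)
    (hfar : ∀ s ∈ S, ¬ Cl G s y) (hw : Dom2 G y w x) :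
    Bw G S x w ∨ (w ∈ S ∧ Hn G S w = {x}) := by
  have hwx := (H.not_cl hw).2
  have hall : ∀ s ∈ S, s ≠ x → Cl G w s := by
    intro s hs hsx
    rcases hw s hsx with h | h
    · exact absurd h.symm (hfar s hs)
    · exact h
  by_cases hwS : w ∈ S
  · right
    refine ⟨hwS, ?_⟩
    ext s
    rw [mem_Hn, mem_singleton]
    constructor
    · rintro ⟨hs, h⟩
      by_contra hne
      exact h (hall s hs hne)
    · rintro rfl
      exact ⟨hx, hwx⟩
  · left
    refine ⟨hwS, fun h => hwx (Or.inr h), fun s hs hsx => ?_⟩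
    rcases hall s hs hsx with h | h
    · exact absurd (h ▸ hs) hwS
    · exact h

lemma Setup.dichotomy (H : Setup G r S) {x : V} (hx : x ∈ S) (hne : (Hn G S x).Nonempty) :
    (∃ w, Bw G S x w) ∨ ∃ w ∈ S, Hn G S w = {x} := by
  obtain ⟨z, hz⟩ := hne
  obtain ⟨y, -, hfar, w, hw⟩ := H.exists_far hx hz ∅ (by simp)
  rcases H.far_cases hx hfar hw with h | h
  · exact Or.inl ⟨w, h⟩
  · exact Or.inr ⟨w, h⟩

omit [Fintype V] in
lemma matched {T : Finset V} (hT : T ⊆ S) (h : ∀ x ∈ T, ∃ w ∈ T, Hn G S w = {x})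
    {x w : V} (hw : w ∈ T) (e : Hn G S w = {x}) : Hn G S x = {w} := by
  obtain ⟨w', hw', e'⟩ := h w hw
  have h1 : w' ∈ Hn G S w := Hn_symm (hT hw') (by rw [e']; exact mem_singleton_self _)
  rw [e, mem_singleton] at h1
  rw [← h1, e']

omit [Fintype V] in
lemma even_of_matched {T : Finset V} (hT : T ⊆ S) (h : ∀ x ∈ T, ∃ w ∈ T, Hn G S w = {x}) :
    Even T.card := by
  choose! f hf using h
  have h' : ∀ x ∈ T, ∃ w ∈ T, Hn G S w = {x} := fun x hx => ⟨f x, hf x hx⟩
  have hsum : ∑ _x ∈ T, (1 : ZMod 2) = 0 := by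
    apply sum_involution (fun x _ => f x)
    · intro a _
      decide
    · intro a ha _ e
      have h1 := (hf a ha).2
      rw [e] at h1
      have h2 : a ∈ Hn G S a := by rw [h1]; exact mem_singleton_self _
      exact (mem_Hn.1 h2).2 (Or.inl rfl)
    · intro a ha
      exact (hf a ha).1
    · intro a ha
      have h1 := matched hT h' (hf a ha).1 (hf a ha).2
      have h2 := (hf (f a) (hf a ha).1).2
      have h3 := matched hT h' (hf (f a) (hf a ha).1).1 h2
      have h4 := (hf a ha).2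
      rw [h3] at h4
      exact singleton_injective h4
  rw [sum_const, nsmul_eq_mul, mul_one] at hsum
  exact (ZMod.natCast_eq_zero_iff_even).1 hsum

/-- Case 1: no vertex with a non-neighbour in `S` has an outside witness. -/
lemma Setup.case_noB (H : Setup G r S) (hr : 1 ≤ r) (hev : Even r)
    (hB : ∀ x ∈ S, (Hn G S x).Nonempty → ∀ w, ¬ Bw G S x w) : False := by
  have hA : ∀ x ∈ S, (Hn G S x).Nonempty → ∃ w ∈ S, Hn G S w = {x} := by
    intro x hx hne
    rcases H.dichotomy hx hne with ⟨w, hw⟩ | h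
    · exact absurd hw (hB x hx hne w)
    · exact h
  -- the non-adjacency graph on `S` is a matching
  have hM : ∀ x ∈ S, (Hn G S x).Nonempty → ∃ w ∈ S, Hn G S x = {w} ∧ Hn G S w = {x} := by
    intro x hx hne
    obtain ⟨w, hw, e⟩ := hA x hx hne
    obtain ⟨w', hw', e'⟩ := hA w hw (by rw [e]; exact singleton_nonempty _)
    have h1 : w' ∈ Hn G S w := Hn_symm hw' (by rw [e']; exact mem_singleton_self _)
    rw [e, mem_singleton] at h1
    exact ⟨w, hw, by rw [← h1, e'], e⟩
  have hOn : ∀ x ∈ S, (On G S x).card ≤ 1 := by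
    intro x hx
    have h1 := H.on_le_hn hx
    rcases (Hn G S x).eq_empty_or_nonempty with h | h
    · rw [h] at h1
      simp only [card_empty] at h1
      omega
    · obtain ⟨w, -, e, -⟩ := hM x hx h
      rwa [e, card_singleton] at h1
  -- a vertex adjacent to all of `S`
  obtain ⟨z, hz, hz0⟩ : ∃ z ∈ S, Hn G S z = ∅ := by
    by_contra hc
    have : Even S.card := even_of_matched (G := G) (subset_refl S) (fun x hx =>
      hA x hx (nonempty_iff_ne_empty.2 (fun e => hc ⟨x, hx, e⟩)))
    rw [H.card] at this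
    exact (Nat.not_even_iff_odd.2 hev.add_one) this
  have hzcl : ∀ s ∈ S, Cl G z s := by
    intro s hs
    by_contra h
    have : s ∈ Hn G S z := mem_Hn.2 ⟨hs, h⟩
    rw [hz0] at this
    exact notMem_empty _ this
  have hzOn : ∀ t, t ∉ S → ¬ G.Adj z t := by
    intro t ht h
    have h1 := H.on_le_hn hz
    rw [hz0, card_empty] at h1
    have h2 : 0 < (On G S z).card := card_pos.2 ⟨t, mem_On.2 ⟨ht, h⟩⟩
    omega
  have hbig := H.big
  -- a matched pair
  obtain ⟨u, hu, hune⟩ : ∃ u ∈ S, (Hn G S u).Nonempty := by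
    have hS : S ≠ univ := by
      intro e
      have := H.card
      rw [e, card_univ] at this
      nlinarith
    obtain ⟨a, ha, b, hb, hab⟩ := H.conn S ⟨z, hz⟩ hS
    refine ⟨a, ha, card_pos.1 ?_⟩
    have h1 := H.on_le_hn ha
    have h2 : 0 < (On G S a).card := card_pos.2 ⟨b, mem_On.2 ⟨hb, hab⟩⟩
    omega
  obtain ⟨v, hv, huv, hvu⟩ := hM u hu hune
  have hvH : v ∈ Hn G S u := by rw [huv]; exact mem_singleton_self _
  have hnuv : ¬ Cl G u v := (mem_Hn.1 hvH).2
  obtain ⟨E, hE⟩ : ∃ E : Finset V, ∀ y, y ∈ E ↔ ∃ w ∈ On G S v, Dom2 G z w y :=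
    ⟨univ.filter (fun y => ∃ w ∈ On G S v, Dom2 G z w y), fun y => by simp⟩
  have hE1 : E.card ≤ 1 := (H.card_exc z _ E (fun y hy => (hE y).1 hy)).trans (hOn v hv)
  obtain ⟨y, hyE, hfar, w, hw⟩ := H.exists_far hu hvH E hE1
  have hwv : w = v := by
    rcases H.far_cases hu hfar hw with h | ⟨hwS, h⟩
    · exact absurd h (hB u hu hune w)
    · have : w ∈ Hn G S u := Hn_symm hwS (by rw [h]; exact mem_singleton_self _)
      rwa [huv, mem_singleton] at this
  subst hwv
  have hzy := hfar z hz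
  obtain ⟨a, ha | ha⟩ := H.cr z y (fun e => hzy (Or.inl e.symm)) (fun e => hzy (Or.inr e))
  · have haS : a ∉ S := fun h => H.not_dom2 hr hz h ha
    have hau : a ≠ u := fun e => haS (e ▸ hu)
    rcases hw a hau with h | h
    · exact (H.not_cl ha).2 h.symm
    · rcases h with h | h
      · exact haS (h ▸ hv)
      · exact hyE ((hE y).2 ⟨a, mem_On.2 ⟨haS, h⟩, ha⟩)
  · have haS : a ∉ S := fun h => (H.not_cl ha).2 (hzcl a h).symm
    have hadj : ∀ s ∈ S, s ≠ z → G.Adj s a := by
      intro s hs hsz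
      rcases ha s hsz with h | h | h
      · exact absurd h.symm (hfar s hs)
      · exact absurd (h ▸ hs) haS
      · exact h.symm
    have hout : ∀ s ∈ S, ∀ t, t ∉ S → G.Adj s t → t = a := by
      intro s hs t ht h
      have hsz : s ≠ z := fun e => hzOn t ht (e ▸ h)
      exact card_le_one.1 (hOn s hs) t (mem_On.2 ⟨ht, h⟩) a (mem_On.2 ⟨haS, hadj s hs hsz⟩)
    have huz : u ≠ z := by
      rintro rfl
      exact hnuv (hzcl w hv)
    have hT : insert a S ≠ univ := by
      intro e
      have h1 := card_insert_le a S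
      rw [e, card_univ, H.card] at h1
      nlinarith
    obtain ⟨p, hp, q, hq, hpq⟩ := H.conn (insert a S) (insert_nonempty _ _) hT
    rw [mem_insert, not_or] at hq
    have hpa : p = a := by
      rcases mem_insert.1 hp with h | h
      · exact h
      · exact absurd (hout p h q hq.2 hpq) hq.1
    subst hpa
    have hqfar : ∀ s ∈ S, ¬ Cl G s q := by
      rintro s hs (h | h)
      · exact hq.2 (h ▸ hs)
      · exact hq.1 (hout s hs q hq.2 h)
    have hcv : ∀ c, Cl G c w → c ∈ S ∨ c = p := by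
      intro c h
      by_cases hc : c ∈ S
      · exact Or.inl hc
      · rcases h with h | h
        · exact absurd (h ▸ hv) hc
        · exact Or.inr (hout w hv c hc h.symm)
    have huq := hqfar u hu
    obtain ⟨c, hc | hc⟩ := H.cr u q (fun e => huq (Or.inl e.symm)) (fun e => huq (Or.inr e))
    · have hwq : w ≠ q := fun e => hq.2 (e ▸ hv)
      rcases hc w hwq with h | h
      · exact hnuv h
      · rcases hcv c h with h' | rfl
        · exact H.not_dom2 hr hu h' hc
        · exact (H.not_cl hc).2 (Or.inr hpq)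
    · have hwu : w ≠ u := fun e => hnuv (Or.inl e)
      rcases hc w hwu with h | h
      · exact hqfar w hv h.symm
      · rcases hcv c h with h' | rfl
        · have : c ∈ Hn G S u := mem_Hn.2 ⟨h', fun h'' => (H.not_cl hc).2 h''.symm⟩
          rw [huv, mem_singleton] at this
          subst this
          obtain ⟨t, ht1, ht2⟩ := H.nd z q
          have htS : t ∉ S := fun h => ht1 (hzcl t h)
          have htu : t ≠ u := fun e => htS (e ▸ hu)
          rcases hc t htu with h1 | h1 | h1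
          · exact ht2 h1
          · exact htS (h1 ▸ hv)
          · have := hout c hv t htS h1
            subst this
            exact ht2 (Or.inr hpq.symm)
        · exact (H.not_cl hc).2 (Or.inr (hadj u hu huz).symm)

/-- outside witnesses are counted by the outside neighbourhood -/
lemma Setup.card_B (_H : Setup G r S) {z : V} (hz : z ∈ S) (B : Finset V) (hBS : B ⊆ S)
    (f : V → V) (hf : ∀ x ∈ B, Bw G S x (f x)) :
    (B.erase z).image f ⊆ On G S z ∧ ((B.erase z).image f).card = (B.erase z).card := by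
  constructor
  · intro t ht
    obtain ⟨x, hx, rfl⟩ := mem_image.1 ht
    obtain ⟨hxz, hxB⟩ := mem_erase.1 hx
    exact mem_On.2 ⟨(hf x hxB).1, ((hf x hxB).2.2 z hz hxz.symm).symm⟩
  · apply card_image_of_injOn
    intro x hx x' hx' e
    by_contra hne
    have h1 := hf x (mem_of_mem_erase hx)
    have h2 := hf x' (mem_of_mem_erase hx')
    exact h1.2.1 (e ▸ h2.2.2 x (hBS (mem_of_mem_erase hx)) hne)

/-- Case 2a: every vertex of `S` has an outside witness. -/
lemma Setup.case_allB (H : Setup G r S) (hr : 2 ≤ r) (hB : ∀ x ∈ S, ∃ w, Bw G S x w) :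
    False := by
  choose! f hf using hB
  have hcard := H.card
  have hOn : ∀ z ∈ S, On G S z = (S.erase z).image f ∧ ∀ s ∈ S, s ≠ z → ¬ G.Adj z s := by
    intro z hz
    obtain ⟨h1, h2⟩ := H.card_B hz S (subset_refl _) f hf
    rw [card_erase_of_mem hz, hcard] at h2
    have h3 : On G S z ⊆ univ.filter (G.Adj z) := fun t ht =>
      mem_filter.2 ⟨mem_univ _, (mem_On.1 ht).2⟩
    have h4 := H.deg z hz
    have h5 := card_le_card h1
    have h6 := card_le_card h3
    refine ⟨(eq_of_subset_of_card_le h1 (by omega)).symm, fun s hs _ hadj => ?_⟩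
    have h7 : On G S z = univ.filter (G.Adj z) := eq_of_subset_of_card_le h3 (by omega)
    have h8 : s ∈ On G S z := by
      rw [h7]
      exact mem_filter.2 ⟨mem_univ _, hadj⟩
    exact (mem_On.1 h8).1 hs
  have hwit : ∀ u ∈ S, ∀ v ∈ S, ∀ w, Dom2 G u w v → w = f v := by
    intro u hu v hv w hw
    have hwS : w ∉ S := fun h => H.not_dom2 (by omega) hu h hw
    obtain ⟨s, hs, hs'⟩ : ∃ s ∈ S, s ∉ ({u, v} : Finset V) := by
      apply exists_mem_notMem_of_card_lt_card
      have : ({u, v} : Finset V).card ≤ 2 := card_le_two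
      omega
    simp only [mem_insert, mem_singleton, not_or] at hs'
    have h1 : G.Adj w s := by
      rcases hw s hs'.2 with (h | h) | (h | h)
      · exact absurd h hs'.1
      · exact absurd h ((hOn u hu).2 s hs hs'.1)
      · exact absurd (h ▸ hs) hwS
      · exact h
    have h2 : w ∈ On G S s := mem_On.2 ⟨hwS, h1.symm⟩
    rw [(hOn s hs).1] at h2
    obtain ⟨x, hx, rfl⟩ := mem_image.1 h2
    have hxS := mem_of_mem_erase hx
    by_cases hxv : x = v
    · rw [hxv]
    · exact absurd (Or.inr ((hf x hxS).2.2 v hv (Ne.symm hxv))) (H.not_cl hw).2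
  have hpair : ∀ u ∈ S, ∀ v ∈ S, u ≠ v → Dom2 G u (f v) v ∨ Dom2 G v (f u) u := by
    intro u hu v hv huv
    obtain ⟨w, hw | hw⟩ := H.cr u v huv ((hOn u hu).2 v hv huv.symm)
    · exact Or.inl (hwit u hu v hv w hw ▸ hw)
    · exact Or.inr (hwit v hv u hu w hw ▸ hw)
  have hclq0 : ∀ u ∈ S, ∀ v ∈ S, Dom2 G u (f v) v → Cl G (f v) (f u) := by
    intro u hu v hv h
    have h1 := hf u hu
    rcases h (f u) (fun e => h1.1 (e ▸ hv)) with (h2 | h2) | h2
    · exact absurd (by rw [h2]; exact hu) h1.1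
    · exact absurd h2.symm h1.2.1
    · exact h2
  have hclq : ∀ u ∈ S, ∀ v ∈ S, Cl G (f v) (f u) := by
    intro u hu v hv
    by_cases huv : u = v
    · rw [huv]
      exact Or.inl rfl
    · rcases hpair u hu v hv huv with h | h
      · exact hclq0 u hu v hv h
      · exact (hclq0 v hv u hu h).symm
  have hfin : ∀ u ∈ S, ∀ v ∈ S, u ≠ v → ¬ Dom2 G u (f v) v := by
    intro u hu v hv huv h
    obtain ⟨t, h1, h2⟩ := H.nd (f u) (f v)
    by_cases htS : t ∈ S
    · by_cases htv : t = v
      · exact h1 (Or.inr (htv ▸ (hf u hu).2.2 v hv huv.symm))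
      · exact h2 (Or.inr ((hf v hv).2.2 t htS htv))
    · rcases h t (fun e => htS (e ▸ hv)) with (h3 | h3) | h3
      · exact htS (h3 ▸ hu)
      · have h4 : t ∈ On G S u := mem_On.2 ⟨htS, h3⟩
        rw [(hOn u hu).1] at h4
        obtain ⟨x, hx, rfl⟩ := mem_image.1 h4
        exact h2 (hclq x (mem_of_mem_erase hx) v hv)
      · exact h2 h3
  obtain ⟨u, v, hu, hv, huv⟩ := one_lt_card_iff.1 (show 1 < S.card by omega)
  rcases hpair u hu v hv huv with h | h
  · exact hfin u hu v hv huv h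
  · exact hfin v hv u hu huv.symm h

theorem Setup.false (H : Setup G r S) (hr : 4 ≤ r) (hev : Even r) : False := by
  by_cases hB : ∀ x ∈ S, (Hn G S x).Nonempty → ∀ w, ¬ Bw G S x w
  · exact H.case_noB (by omega) hev hB
  push Not at hB
  obtain ⟨b, hb, hbne, wb, hwb⟩ := hB
  have hcard := H.card
  have hne : ∀ x ∈ S, (Hn G S x).Nonempty := by
    intro x hx
    by_cases hxb : x = b
    · rwa [hxb]
    · have h1 := H.on_le_hn hx
      have h2 : 0 < (On G S x).card :=
        card_pos.2 ⟨wb, mem_On.2 ⟨hwb.1, (hwb.2.2 x hx hxb).symm⟩⟩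
      exact card_pos.1 (by omega)
  obtain ⟨B, hBmem⟩ : ∃ B : Finset V, ∀ x, x ∈ B ↔ x ∈ S ∧ ∃ w, Bw G S x w :=
    ⟨S.filter (fun x => ∃ w, Bw G S x w), fun x => by simp⟩
  have hBS : B ⊆ S := fun x hx => ((hBmem x).1 hx).1
  have hbB : b ∈ B := (hBmem b).2 ⟨hb, wb, hwb⟩
  have hA : ∀ x ∈ S, x ∉ B → ∃ w ∈ S, Hn G S w = {x} := by
    intro x hx hxB
    rcases H.dichotomy hx (hne x hx) with h | h
    · exact absurd ((hBmem x).2 ⟨hx, h⟩) hxB
    · exact h
  have hch : ∀ x ∈ B, ∃ w, Bw G S x w := fun x hx => ((hBmem x).1 hx).2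
  choose! f hf using hch
  have hcount : ∀ z ∈ S, (B.erase z).card ≤ (Hn G S z).card := by
    intro z hz
    obtain ⟨h1, h2⟩ := H.card_B hz B hBS f hf
    have h3 := card_le_card h1
    have h4 := H.on_le_hn hz
    omega
  by_cases hall : ∀ x ∈ S, x ∈ B
  · exact H.case_allB (by omega) (fun x hx => ((hBmem x).1 (hall x hx)).2)
  push Not at hall
  obtain ⟨x1, hx1, hx1B⟩ := hall
  obtain ⟨w1, hw1, e1⟩ := hA x1 hx1 hx1B
  have hB2 : B.card ≤ 2 := by
    have h1 := hcount w1 hw1
    rw [e1, card_singleton] at h1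
    have h2 := pred_card_le_card_erase (s := B) (a := w1)
    omega
  by_cases hB1 : B.card ≤ 1
  · have hBb : ∀ x ∈ B, x = b := fun x hx => card_le_one.1 hB1 x hx b hbB
    have hA' : ∀ x ∈ S, x ≠ b → ∃ w ∈ S, Hn G S w = {x} :=
      fun x hx hxb => hA x hx (fun h => hxb (hBb x h))
    by_cases hx0 : ∃ x0, Hn G S b = {x0}
    · obtain ⟨x0, e0⟩ := hx0
      have hx0H : x0 ∈ Hn G S b := by rw [e0]; exact mem_singleton_self _
      have hx0S := (mem_Hn.1 hx0H).1
      have hx0b : x0 ≠ b := fun e => (mem_Hn.1 hx0H).2 (Or.inl e)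
      have hev2 : Even ((S.erase b).erase x0).card := by
        apply even_of_matched (G := G) (S := S)
          ((erase_subset _ _).trans (erase_subset _ _))
        intro x hx
        obtain ⟨hxx0, hx'⟩ := mem_erase.1 hx
        obtain ⟨hxb, hxS⟩ := mem_erase.1 hx'
        obtain ⟨w, hw, e⟩ := hA' x hxS hxb
        refine ⟨w, mem_erase.2 ⟨?_, mem_erase.2 ⟨?_, hw⟩⟩, e⟩
        · rintro rfl
          have := Hn_symm hb hx0H
          rw [e, mem_singleton] at this
          exact hxb this.symm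
        · rintro rfl
          rw [e0] at e
          exact hxx0 (singleton_injective e).symm
      rw [card_erase_of_mem (mem_erase.2 ⟨hx0b, hx0S⟩), card_erase_of_mem hb, hcard] at hev2
      obtain ⟨k, hk⟩ := hev
      obtain ⟨l, hl⟩ := hev2
      omega
    · have hT : ∀ x ∈ S.erase b, ∃ w ∈ S.erase b, Hn G S w = {x} := by
        intro x hx
        obtain ⟨hxb, hxS⟩ := mem_erase.1 hx
        obtain ⟨w, hw, e⟩ := hA' x hxS hxb
        refine ⟨w, mem_erase.2 ⟨?_, hw⟩, e⟩
        rintro rfl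
        exact hx0 ⟨x, e⟩
      obtain ⟨y, hy⟩ := hbne
      have hyS := (mem_Hn.1 hy).1
      have hyb : y ≠ b := fun e => (mem_Hn.1 hy).2 (Or.inl e)
      obtain ⟨w, hw, e⟩ := hT y (mem_erase.2 ⟨hyb, hyS⟩)
      have h1 := matched (erase_subset b S) hT hw e
      have h2 := Hn_symm hb hy
      rw [h1, mem_singleton] at h2
      exact (mem_erase.1 hw).1 h2.symm
  · have hA' : ∀ x ∈ S \ B, ∃ w ∈ B, Hn G S w = {x} := by
      intro x hx
      obtain ⟨hxS, hxB⟩ := mem_sdiff.1 hx
      obtain ⟨w, hw, e⟩ := hA x hxS hxB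
      refine ⟨w, ?_, e⟩
      by_contra hwB
      have h1 := hcount w hw
      rw [e, card_singleton, erase_eq_of_notMem hwB] at h1
      exact hB1 h1
    choose! g hg using hA'
    have h1 : (S \ B).card ≤ B.card := by
      apply card_le_card_of_injOn g (fun x hx => (hg x hx).1)
      intro x hx x' hx' e
      have h2 := (hg x hx).2
      have h3 := (hg x' hx').2
      rw [e, h3] at h2
      exact (singleton_injective h2).symm
    have h2 := card_sdiff_add_card_eq_card hBS
    omega

end Pool.Agent.MP_39baa9_co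

end

-- part MP_39baa9_co.Final
section

set_option autoImplicit false

namespace Pool.Agent.MP_39baa9_co

open Classical Finset

theorem connected_bound (r : ℕ) (hev : Even r) (hr : 4 ≤ r) (V : Type) [Finite V]
    (G : SimpleGraph V) (hn : (r + 2) ^ 2 ≤ Nat.card V) (hc : G.Connected)
    (h : EdgeCritical 3 G) : lowDegreeCount G r ≤ r := by
  by_contra hlt
  have := Fintype.ofFinite V
  have : Nonempty V := hc.nonempty
  have h1 : r + 1 ≤ (univ.filter (fun v => (G.neighborSet v).ncard ≤ r)).card := by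
    rw [← Set.ncard_coe_finset]
    have : ((univ.filter (fun v => (G.neighborSet v).ncard ≤ r) : Finset V) : Set V) =
        {v | (G.neighborSet v).ncard ≤ r} := by
      ext v
      simp
    rw [this]
    unfold lowDegreeCount at hlt
    omega
  obtain ⟨S, hS, hcard⟩ := exists_subset_card_eq h1
  refine Setup.false (G := G) (S := S) ⟨hcard, ?_, nodom_of_crit h,
    fun u v huv hn => crit_pair h huv hn, ?_, ?_⟩ hr hev
  · intro s hs
    have h2 := (mem_filter.1 (hS hs)).2
    rw [← Set.ncard_coe_finset]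
    have : ((univ.filter (G.Adj s) : Finset V) : Set V) = G.neighborSet s := by
      ext v
      simp
    rwa [this]
  · rw [Nat.card_eq_fintype_card] at hn
    nlinarith
  · intro T hT hTu
    obtain ⟨a, ha⟩ := hT
    obtain ⟨b, hb⟩ : ∃ b, b ∉ T := by
      by_contra hcon
      push Not at hcon
      exact hTu (eq_univ_of_forall hcon)
    obtain ⟨p⟩ := hc.preconnected a b
    obtain ⟨d, -, hd1, hd2⟩ := p.exists_boundary_dart (T : Set V) ha hb
    exact ⟨d.fst, hd1, d.snd, hd2, d.adj⟩

/-- `K_{r+1}` together with a cocktail party graph. -/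
def exG (r m : ℕ) : SimpleGraph (Fin (r + 1) ⊕ (Fin (m + 2) × Bool)) where
  Adj x y := match x, y with
    | Sum.inl a, Sum.inl b => a ≠ b
    | Sum.inr p, Sum.inr q => p.1 ≠ q.1
    | _, _ => False
  symm := ⟨fun x y h => by
    cases x <;> cases y
    · exact Ne.symm h
    · exact h
    · exact h
    · exact Ne.symm h⟩
  loopless := ⟨fun x h => by
    cases x
    · exact h rfl
    · exact h rfl⟩

lemma exG_cl_ll {r m : ℕ} (a b : Fin (r + 1)) : Cl (exG r m) (Sum.inl a) (Sum.inl b) := by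
  by_cases h : a = b
  · exact Or.inl (by rw [h])
  · exact Or.inr h

lemma exG_cl_rr {r m : ℕ} (p q : Fin (m + 2) × Bool) :
    Cl (exG r m) (Sum.inr p) (Sum.inr q) ↔ q ≠ (p.1, !p.2) := by
  obtain ⟨a, s⟩ := p
  obtain ⟨b, t⟩ := q
  simp only [Cl, exG, Sum.inr.injEq, Prod.mk.injEq, ne_eq]
  by_cases h : a = b
  · subst h
    cases s <;> cases t <;> simp
  · simp [h, Ne.symm h]

lemma exG_not_cl_lr {r m : ℕ} (a : Fin (r + 1)) (q : Fin (m + 2) × Bool) :
    ¬ Cl (exG r m) (Sum.inl a) (Sum.inr q) := by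
  rintro (h | h)
  · cases h
  · exact h

lemma exG_not_cl_rl {r m : ℕ} (a : Fin (r + 1)) (q : Fin (m + 2) × Bool) :
    ¬ Cl (exG r m) (Sum.inr q) (Sum.inl a) := fun h => exG_not_cl_lr a q h.symm

lemma cl_mono {V : Type} {G G' : SimpleGraph V} (h : G ≤ G') {a t : V} (hc : Cl G a t) :
    Cl G' a t := hc.imp id (fun h' => h h')

lemma exG_crit (r m : ℕ) : EdgeCritical 3 (exG r m) := by
  constructor
  · apply le_antisymm
    · have : dominationNumber (exG r m) ≤
          ({Sum.inl 0, Sum.inr (0, true), Sum.inr (0, false)} :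
            Finset (Fin (r + 1) ⊕ (Fin (m + 2) × Bool))).card := by
        apply Nat.sInf_le
        refine ⟨_, fun v hv => ?_, rfl⟩
        simp only [mem_insert, mem_singleton, not_or] at hv
        rcases v with a | ⟨b, t⟩
        · exact ⟨Sum.inl 0, by simp, fun e => hv.1 (by rw [e])⟩
        · refine ⟨Sum.inr (0, true), by simp, fun e => ?_⟩
          have e' : b = 0 := e
          subst e'
          cases t
          · exact hv.2.2 rfl
          · exact hv.2.1 rfl
      exact this.trans card_le_three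
    · by_contra hlt
      obtain ⟨a, b, hab⟩ := (domNum_lt_three_iff (exG r m)).1 (by omega)
      rcases a with a | p <;> rcases b with b | q
      · exact (hab (Sum.inr (0, true))).elim (exG_not_cl_lr _ _) (exG_not_cl_lr _ _)
      · exact (hab (Sum.inr (q.1, !q.2))).elim (exG_not_cl_lr _ _)
          (fun h => (exG_cl_rr _ _).1 h rfl)
      · exact (hab (Sum.inr (p.1, !p.2))).elim (fun h => (exG_cl_rr _ _).1 h rfl)
          (exG_not_cl_lr _ _)
      · exact (hab (Sum.inl 0)).elim (exG_not_cl_rl _ _) (exG_not_cl_rl _ _)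
  · have key : ∀ (a : Fin (r + 1)) (q : Fin (m + 2) × Bool) (G' : SimpleGraph _),
        exG r m ≤ G' → (G'.Adj (Sum.inl a) (Sum.inr q) ∨
          G'.Adj (Sum.inr (q.1, !q.2)) (Sum.inr q)) → dominationNumber G' < 3 := by
      intro a q G' hle hadj
      rw [domNum_lt_three_iff]
      refine ⟨Sum.inl a, Sum.inr (q.1, !q.2), fun t => ?_⟩
      rcases t with b | p
      · exact Or.inl (cl_mono hle (exG_cl_ll a b))
      · by_cases hp : p = q
        · subst hp
          exact hadj.imp Or.inr Or.inr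
        · refine Or.inr (cl_mono hle ((exG_cl_rr _ _).2 ?_))
          simpa using hp
    intro u v huv hn
    have hadj : (exG r m ⊔ SimpleGraph.edge u v).Adj u v := by
      rw [SimpleGraph.sup_adj, SimpleGraph.edge_adj]
      exact Or.inr ⟨Or.inl ⟨rfl, rfl⟩, huv⟩
    rcases u with a | p <;> rcases v with b | q
    · exact absurd (fun e => huv (by rw [e])) hn
    · exact key a q _ le_sup_left (Or.inl hadj)
    · exact key b p _ le_sup_left (Or.inl hadj.symm)
    · have h1 : ¬ Cl (exG r m) (Sum.inr q) (Sum.inr p) := by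
        rintro (h | h)
        · exact huv h
        · exact hn h.symm
      rw [exG_cl_rr, not_not] at h1
      exact key 0 q _ le_sup_left (Or.inr (h1 ▸ hadj))

lemma exG_low (r m : ℕ) : r + 1 ≤ lowDegreeCount (exG r m) r := by
  have h1 : (Set.range (Sum.inl : Fin (r + 1) → Fin (r + 1) ⊕ (Fin (m + 2) × Bool))).ncard =
      r + 1 := by
    rw [Set.ncard_range_of_injective Sum.inl_injective]
    simp
  refine h1.symm.le.trans ?_
  apply Set.ncard_le_ncard _ (Set.toFinite _)
  rintro _ ⟨a, rfl⟩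
  have h2 : (exG r m).neighborSet (Sum.inl a) = Sum.inl '' ({a}ᶜ : Set (Fin (r + 1))) := by
    ext t
    rcases t with b | q
    · simp only [SimpleGraph.mem_neighborSet, exG, Set.mem_image, Set.mem_compl_iff,
        Set.mem_singleton_iff, Sum.inl.injEq, exists_eq_right]
      exact ⟨Ne.symm, Ne.symm⟩
    · simp [exG]
  show ((exG r m).neighborSet (Sum.inl a)).ncard ≤ r
  rw [h2, Set.ncard_image_of_injective _ Sum.inl_injective]
  have h3 := Set.ncard_add_ncard_compl ({a} : Set (Fin (r + 1)))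
  simp only [Set.ncard_singleton, Nat.card_eq_fintype_card, Fintype.card_fin] at h3
  omega

theorem disconnected_example (r N : ℕ) : ∃ (V : Type) (_ : Finite V) (G : SimpleGraph V),
    N ≤ Nat.card V ∧ EdgeCritical 3 G ∧ r + 1 ≤ lowDegreeCount G r := by
  refine ⟨_, inferInstance, exG r N, ?_, exG_crit r N, exG_low r N⟩
  simp
  omega

end Pool.Agent.MP_39baa9_co

end
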